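import Pool.Agent.W627.LT.Stm

set_option autoImplicit false

namespace Pool.Agent.W520.LT

open Finset Filter NumberField Pool.Agent.H38R2.CG Pool.Agent.W627.LT
open scoped Classical

lemma good_sq {ε X : ℝ} {m k : ℕ} (h : Good ε X (m * k ^ 2)) : Good ε X m := by
  intro K _ _ hf hx l hl
  obtain ⟨x, hx⟩ := hx
  refine h K hf ⟨x * (k : K), ?_⟩ l hl
  rw [mul_pow, hx]; push_cast; ring

lemma not_sq {m k : ℕ} (hk : 0 < k) (h : ¬ IsSquare m) : ¬ IsSquare (m * k ^ 2) := by
  rintro ⟨s, hs⟩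
  apply h
  have h1 : k ^ 2 ∣ s ^ 2 := ⟨m, by rw [sq s, ← hs]; ring⟩
  have h2 : k ∣ s := (Nat.pow_dvd_pow_iff two_ne_zero).1 h1
  obtain ⟨c, rfl⟩ := h2
  refine ⟨c, ?_⟩
  have : m * k ^ 2 = (c * c) * k ^ 2 := by rw [hs]; ring
  exact Nat.eq_of_mul_eq_mul_right (by positivity) this

lemma count (y a b : ℕ) (ha : 0 < a) (hb : 0 < b) :
    (PQ y).card ≤ (SQ y a).card + (SQ y b).card + (SQ y (a * b)).card +
      (a * b).primeFactors.card := by
  have hsub : PQ y ⊆ ((SQ y a ∪ SQ y b) ∪ SQ y (a * b)) ∪ (a * b).primeFactors := by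
    intro p hp
    have hpp : p.Prime := (Finset.mem_filter.1 hp).2
    simp only [Finset.mem_union]
    by_cases hd : p ∣ a * b
    · right
      exact Nat.mem_primeFactors.2 ⟨hpp, hd, by positivity⟩
    · left
      have hda : ¬ p ∣ a := fun h => hd (h.mul_right b)
      have hdb : ¬ p ∣ b := fun h => hd (h.mul_left a)
      have ga : Int.gcd (a : ℤ) (p : ℤ) = 1 := by
        rw [Int.gcd_natCast_natCast]
        exact ((Nat.Prime.coprime_iff_not_dvd hpp).2 hda).symm
      have gb : Int.gcd (b : ℤ) (p : ℤ) = 1 := by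
        rw [Int.gcd_natCast_natCast]
        exact ((Nat.Prime.coprime_iff_not_dvd hpp).2 hdb).symm
      have hm : jacobiSym ((a * b : ℕ) : ℤ) p = jacobiSym (a : ℤ) p * jacobiSym (b : ℤ) p := by
        push_cast
        exact jacobiSym.mul_left _ _ _
      rcases jacobiSym.eq_one_or_neg_one ga with h1 | h1
      · left; left
        exact Finset.mem_filter.2 ⟨hp, hda, h1⟩
      · rcases jacobiSym.eq_one_or_neg_one gb with h2 | h2
        · left; right
          exact Finset.mem_filter.2 ⟨hp, hdb, h2⟩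
        · right
          refine Finset.mem_filter.2 ⟨hp, hd, ?_⟩
          rw [hm, h1, h2]; norm_num
  calc (PQ y).card ≤ (((SQ y a ∪ SQ y b) ∪ SQ y (a * b)) ∪ (a * b).primeFactors).card :=
        Finset.card_le_card hsub
    _ ≤ ((SQ y a ∪ SQ y b) ∪ SQ y (a * b)).card + (a * b).primeFactors.card :=
        Finset.card_union_le _ _
    _ ≤ ((SQ y a ∪ SQ y b).card + (SQ y (a * b)).card) + (a * b).primeFactors.card := by
        gcongr; exact Finset.card_union_le _ _
    _ ≤ _ := by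
        gcongr; exact Finset.card_union_le _ _

lemma omega_le (n : ℕ) (hn : 0 < n) : (n.primeFactors.card : ℝ) * Real.log 2 ≤ Real.log n := by
  have h1 : 2 ^ n.primeFactors.card ≤ n := by
    calc 2 ^ n.primeFactors.card = ∏ p ∈ n.primeFactors, 2 := by simp
      _ ≤ ∏ p ∈ n.primeFactors, p :=
        Finset.prod_le_prod' (fun p hp => (Nat.prime_of_mem_primeFactors hp).two_le)
      _ ≤ n := Nat.le_of_dvd hn (Nat.prod_primeFactors_dvd n)
  have h2 : ((2 : ℝ) ^ n.primeFactors.card) ≤ n := by exact_mod_cast h1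
  have h3 := Real.log_le_log (by positivity) h2
  rwa [Real.log_pow] at h3

lemma asym (A : ℝ) (hA : 2 ≤ A) (y0 : ℕ) : ∃ X1 : ℝ, ∀ X : ℝ, X1 ≤ X →
    y0 ≤ ⌊Real.log X ^ A⌋₊ ∧
    3 * ((⌊Real.log X ^ A⌋₊ : ℝ) / (20 * Real.log ⌊Real.log X ^ A⌋₊)) +
      2 * Real.log X / Real.log 2 ≤
      (⌊Real.log X ^ A⌋₊ : ℝ) / (2 * Real.log ⌊Real.log X ^ A⌋₊) := by
  have ht : Tendsto (fun X : ℝ => ⌊Real.log X ^ A⌋₊) atTop atTop :=
    tendsto_nat_floor_atTop.comp
      ((tendsto_rpow_atTop (by linarith : (0 : ℝ) < A)).comp Real.tendsto_log_atTop)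
  have hl : ∀ᶠ x : ℝ in atTop, ‖Real.log x‖ ≤ (1 / 13 : ℝ) * ‖x ^ (1 / 2 : ℝ)‖ :=
    (isLittleO_log_rpow_atTop (by norm_num : (0 : ℝ) < 1 / 2)).bound (by norm_num)
  have hl2 : ∀ᶠ y : ℕ in atTop, ‖Real.log (y : ℝ)‖ ≤ (1 / 13 : ℝ) * ‖(y : ℝ) ^ (1 / 2 : ℝ)‖ :=
    tendsto_natCast_atTop_atTop.eventually hl
  have e1 := ht.eventually hl2
  have e2 := ht.eventually (eventually_ge_atTop (max y0 3))
  have e3 : ∀ᶠ X : ℝ in atTop, 1 ≤ Real.log X :=
    Real.tendsto_log_atTop.eventually (eventually_ge_atTop 1)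
  obtain ⟨X1, h⟩ := (e1.and (e2.and e3)).exists_forall_of_atTop
  refine ⟨X1, fun X hX => ?_⟩
  obtain ⟨h1, h2, h3⟩ := h X hX
  have hlt : Real.log X ^ A < (⌊Real.log X ^ A⌋₊ : ℝ) + 1 := Nat.lt_floor_add_one _
  clear e1 e2 e3 h ht hl hl2
  generalize ⌊Real.log X ^ A⌋₊ = y at h1 h2 hlt ⊢
  have hy0 : y0 ≤ y := (le_max_left _ _).trans h2
  have hy3 : 3 ≤ y := (le_max_right _ _).trans h2
  refine ⟨hy0, ?_⟩
  have hyr : (3 : ℝ) ≤ y := by exact_mod_cast hy3
  have hlogpos : 0 < Real.log y := Real.log_pos (by linarith)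
  have hs : Real.log y ≤ (1 / 13 : ℝ) * √(y : ℝ) := by
    rw [Real.norm_of_nonneg hlogpos.le, Real.norm_of_nonneg (by positivity),
      ← Real.sqrt_eq_rpow] at h1
    exact h1
  have hge : Real.log X ^ (2 : ℝ) ≤ Real.log X ^ A := Real.rpow_le_rpow_of_exponent_le h3 hA
  have h2sq : Real.log X ^ 2 ≤ 2 * y := by
    have : Real.log X ^ (2 : ℝ) = Real.log X ^ 2 := by norm_cast
    rw [this] at hge
    linarith
  have hsy : (√(y : ℝ)) ^ 2 = y := Real.sq_sqrt (by linarith)
  have hsypos : 0 < √(y : ℝ) := Real.sqrt_pos.2 (by linarith)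
  have hlX : Real.log X ≤ (3 / 2) * √(y : ℝ) := by
    by_contra hcc
    have h5 := pow_lt_pow_left₀ (not_le.1 hcc) (by positivity) two_ne_zero
    rw [mul_pow, hsy] at h5
    have h6 := h5.trans_le h2sq
    have h9 : ((3 / 2 : ℝ) ^ 2 - 2) * y < 0 := by rw [sub_mul]; exact sub_neg.2 h6
    have h10 : (0 : ℝ) ≤ ((3 / 2 : ℝ) ^ 2 - 2) * y :=
      mul_nonneg (by norm_num) (le_trans (by norm_num) hyr)
    exact absurd h9 (not_lt.2 h10)
  have hlog2 : (0.69 : ℝ) < Real.log 2 := by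
    have := Real.log_two_gt_d9
    linarith
  have hb : 2 * Real.log X / Real.log 2 ≤ (9 / 2) * √(y : ℝ) := by
    rw [div_le_iff₀ (by linarith)]
    nlinarith
  have hc : (9 / 2) * √(y : ℝ) ≤ (7 / 20) * ((y : ℝ) / Real.log y) := by
    rw [← mul_div_assoc, le_div_iff₀ hlogpos]
    nlinarith [mul_le_mul_of_nonneg_left hs hsypos.le]
  have hd1 : 3 * ((y : ℝ) / (20 * Real.log y)) = (3 / 20) * ((y : ℝ) / Real.log y) := by
    field_simp
  have hd2 : (y : ℝ) / (2 * Real.log y) = (1 / 2) * ((y : ℝ) / Real.log y) := by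
    field_simp
  rw [hd1, hd2]
  linarith

lemma prod_symm {r : ℕ} (d : Fin r → ℕ) (I J : Finset (Fin r)) :
    (∏ i ∈ I, d i) * (∏ i ∈ J, d i) =
      (∏ i ∈ symmDiff I J, d i) * (∏ i ∈ I ∩ J, d i) ^ 2 := by
  have h1 := Finset.prod_inter_mul_prod_sdiff I J d
  have h2 := Finset.prod_inter_mul_prod_sdiff J I d
  have h3 : ∏ i ∈ symmDiff I J, d i = (∏ i ∈ I \ J, d i) * (∏ i ∈ J \ I, d i) := by
    rw [symmDiff_def, Finset.sup_eq_union, Finset.prod_union disjoint_sdiff_sdiff]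
  rw [h3, ← h1, ← h2, Finset.inter_comm J I]
  ring

theorem ltr : S_G → S_P → S_R := by
  intro hG hP ε hε
  obtain ⟨A0, hA0, hG⟩ := hG ε hε
  obtain ⟨X0, hX0, hG⟩ := hG (max A0 2) (le_max_left _ _)
  obtain ⟨y0, hP⟩ := hP
  obtain ⟨X1, hX1⟩ := asym (max A0 2) (le_max_right _ _) y0
  generalize max A0 2 = A at hG hX1
  have key : ∀ X : ℝ, max X0 X1 ≤ X → ∀ a b : ℕ, 0 < a → 0 < b → (a : ℝ) ≤ X → (b : ℝ) ≤ X →
      ¬ IsSquare a → ¬ IsSquare b → ¬ IsSquare (a * b) →
      Good ε X a ∨ Good ε X b ∨ Good ε X (a * b) := by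
    intro X hX a b ha hb haX hbX sa sb sab
    have hXX0 : X0 ≤ X := (le_max_left _ _).trans hX
    obtain ⟨hy0, hy1⟩ := hX1 X ((le_max_right _ _).trans hX)
    have hX3 : 3 ≤ X := hX0.trans hXX0
    by_contra hcon
    push Not at hcon
    obtain ⟨c1, c2, c3⟩ := hcon
    have ha1 : (1 : ℝ) ≤ a := by exact_mod_cast ha
    have hb1 : (1 : ℝ) ≤ b := by exact_mod_cast hb
    have g1 : ((SQ ⌊Real.log X ^ A⌋₊ a).card : ℝ) <
        (⌊Real.log X ^ A⌋₊ : ℝ) / (20 * Real.log ⌊Real.log X ^ A⌋₊) := by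
      by_contra h
      exact c1 (hG X hXX0 a ha sa (by nlinarith) (not_lt.1 h))
    have g2 : ((SQ ⌊Real.log X ^ A⌋₊ b).card : ℝ) <
        (⌊Real.log X ^ A⌋₊ : ℝ) / (20 * Real.log ⌊Real.log X ^ A⌋₊) := by
      by_contra h
      exact c2 (hG X hXX0 b hb sb (by nlinarith) (not_lt.1 h))
    have habX : ((a * b : ℕ) : ℝ) ≤ X ^ 2 := by
      push_cast
      nlinarith
    have g3 : ((SQ ⌊Real.log X ^ A⌋₊ (a * b)).card : ℝ) <
        (⌊Real.log X ^ A⌋₊ : ℝ) / (20 * Real.log ⌊Real.log X ^ A⌋₊) := by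
      by_contra h
      exact c3 (hG X hXX0 (a * b) (by positivity) sab habX (not_lt.1 h))
    have hcnt := count ⌊Real.log X ^ A⌋₊ a b ha hb
    have hcnt' : ((PQ ⌊Real.log X ^ A⌋₊).card : ℝ) ≤ (SQ ⌊Real.log X ^ A⌋₊ a).card +
        (SQ ⌊Real.log X ^ A⌋₊ b).card + (SQ ⌊Real.log X ^ A⌋₊ (a * b)).card +
        (a * b).primeFactors.card := by exact_mod_cast hcnt
    have hlog2 : 0 < Real.log 2 := Real.log_pos (by norm_num)
    have hom : ((a * b).primeFactors.card : ℝ) ≤ 2 * Real.log X / Real.log 2 := by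
      rw [le_div_iff₀ hlog2]
      have h1 := omega_le (a * b) (by positivity)
      have h2 : Real.log ((a * b : ℕ) : ℝ) ≤ Real.log (X ^ 2) :=
        Real.log_le_log (by exact_mod_cast Nat.mul_pos ha hb) habX
      rw [Real.log_pow] at h2
      push_cast at h2 h1
      linarith
    have hpq := hP _ hy0
    linarith
  refine ⟨max X0 X1, fun X hX r d hd hsq hprod => ?_⟩
  have hX3 : 3 ≤ X := hX0.trans ((le_max_left _ _).trans hX)
  set N : Finset (Finset (Fin r)) := Finset.univ.filter (fun I => I.Nonempty) with hN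
  have hNcard : N.card + 1 = 2 ^ r := by
    have : N = Finset.univ.erase ∅ := by
      ext I
      simp [hN, Finset.nonempty_iff_ne_empty]
    rw [this, Finset.card_erase_of_mem (Finset.mem_univ _), Finset.card_univ,
      Fintype.card_finset, Fintype.card_fin]
    have : 0 < 2 ^ r := by positivity
    omega
  set G := (Finset.univ : Finset (Finset (Fin r))).filter
    (fun I => I.Nonempty ∧ Good ε X (∏ i ∈ I, d i)) with hGd
  set B := N.filter (fun I => ¬ Good ε X (∏ i ∈ I, d i)) with hBd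
  have hGN : G = N.filter (fun I => Good ε X (∏ i ∈ I, d i)) := by
    rw [hGd, hN, Finset.filter_filter]
  have hsum : G.card + B.card = N.card := by
    rw [hGN, hBd]
    exact Finset.card_filter_add_card_filter_not _
  have hpow : 2 ^ (r - 1) ≤ 2 ^ r := Nat.pow_le_pow_right (by norm_num) (by omega)
  rcases B.eq_empty_or_nonempty with hB | ⟨I0, hI0⟩
  · rw [hB, Finset.card_empty] at hsum
    omega
  · have hI0' := Finset.mem_filter.1 hI0
    have hI0N : I0.Nonempty := (Finset.mem_filter.1 hI0'.1).2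
    have hr : 1 ≤ r := by
      obtain ⟨i, _⟩ := hI0N
      have := i.2
      omega
    have hle : ∀ I : Finset (Fin r), ((∏ i ∈ I, d i : ℕ) : ℝ) ≤ X := by
      intro I
      refine le_trans ?_ hprod
      have : ∏ i ∈ I, d i ≤ ∏ i, d i :=
        Finset.prod_le_prod_of_subset_of_one_le' (Finset.subset_univ I)
          (fun i _ _ => hd i)
      exact_mod_cast this
    have hpos : ∀ I : Finset (Fin r), 0 < ∏ i ∈ I, d i := fun I =>
      Finset.prod_pos (fun i _ => hd i)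
    have hinj : (B.erase I0).card ≤ G.card := by
      apply Finset.card_le_card_of_injOn (fun J => symmDiff I0 J)
      · intro J hJ
        have hJ' := Finset.mem_erase.1 (Finset.mem_coe.1 hJ)
        have hJB := Finset.mem_filter.1 hJ'.2
        have hJN : J.Nonempty := (Finset.mem_filter.1 hJB.1).2
        have hne : (symmDiff I0 J).Nonempty := by
          rw [Finset.nonempty_iff_ne_empty]
          intro h0
          exact hJ'.1 (symmDiff_eq_bot.1 h0).symm
        have hps := prod_symm d I0 J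
        have hnsq : ¬ IsSquare ((∏ i ∈ I0, d i) * (∏ i ∈ J, d i)) := by
          rw [hps]
          exact not_sq (hpos _) (hsq _ hne)
        have hk := key X hX _ _ (hpos I0) (hpos J) (hle I0) (hle J) (hsq _ hI0N) (hsq _ hJN) hnsq
        rw [Finset.mem_coe]
        refine Finset.mem_filter.2 ⟨Finset.mem_univ _, hne, ?_⟩
        rcases hk with h | h | h
        · exact absurd h hI0'.2
        · exact absurd h hJB.2
        · rw [hps] at h
          exact good_sq h
      · intro J _ J' _ h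
        exact symmDiff_right_injective I0 h
    rw [Finset.card_erase_of_mem hI0] at hinj
    have hp2 : 2 ^ r = 2 * 2 ^ (r - 1) := by
      rw [← pow_succ']
      congr 1
      omega
    omega

end Pool.Agent.W520.LT
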